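import Pool.Agent.helper26.IM.SpecA

set_option autoImplicit false

open Finset

namespace Pool.Agent.helper26.IM

open Pool.Agent.RRank Pool.Agent.helper35.MR

open Polynomial in
theorem OVN_scale {F E : Type} [Field F] [Field E] [Algebra F E] (O : ValuationSubring F) (t : F)
    (ht : t ≠ 0) (n : ℕ) (c : ℕ → F) (hc : ∀ i < n, c i / t ^ (n - i) ∈ O) (e : E)
    (h : e ^ n + ∑ i ∈ Finset.range n, algebraMap F E (c i) * e ^ i = 0) :
    IsIntegral O (e / algebraMap F E t) := by
  have ht' : algebraMap F E t ≠ 0 := (_root_.map_ne_zero _).2 ht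
  refine ⟨X ^ n + ∑ i : Fin n, C (⟨c i / t ^ (n - i), hc i i.2⟩ : O) * X ^ (i : ℕ),
    monic_X_pow_add (degree_sum_fin_lt _), ?_⟩
  have h1 : ∀ i : Fin n, algebraMap O E (⟨c i / t ^ (n - i), hc i i.2⟩ : O) =
      algebraMap F E (c i) / algebraMap F E t ^ (n - (i : ℕ)) := by
    intro i
    show algebraMap F E (c i / t ^ (n - i)) = _
    rw [map_div₀, map_pow]
  simp only [eval₂_add, eval₂_pow, eval₂_X, eval₂_finsetSum, eval₂_mul, eval₂_C, h1]
  rw [Finset.sum_range] at h
  have h2 : ∀ i : Fin n, algebraMap F E (c i) / algebraMap F E t ^ (n - (i : ℕ)) *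
      (e / algebraMap F E t) ^ (i : ℕ) = algebraMap F E (c i) * e ^ (i : ℕ) / algebraMap F E t ^ n := by
    intro i
    have h3 : algebraMap F E t ^ n = algebraMap F E t ^ (n - (i : ℕ)) * algebraMap F E t ^ (i : ℕ) := by
      rw [← pow_add]
      congr 1
      have := i.2
      omega
    rw [h3, div_pow]
    field_simp
  rw [Finset.sum_congr rfl fun i _ => h2 i, ← Finset.sum_div, div_pow, ← add_div, h, zero_div]

open scoped Classical in
theorem OVN_poly (K : Type) [Field K] (p : Polynomial K) (D : ℕ) :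
    RatFunc.inftyValuation K (algebraMap (Polynomial K) (RatFunc K) p) ≤
      RatFunc.inftyValuation K ((RatFunc.X : RatFunc K) ^ D) ↔ p = 0 ∨ p.natDegree ≤ D := by
  have hX : RatFunc.inftyValuation K ((RatFunc.X : RatFunc K) ^ D) = WithZero.exp (D : ℤ) := by
    rw [← zpow_natCast, RatFunc.inftyValuation.X_zpow]
  by_cases hp : p = 0
  · subst hp
    simp
  · rw [hX, RatFunc.inftyValuation_apply, RatFunc.inftyValuation.polynomial K hp,
      WithZero.exp_le_exp]
    simp [hp]

theorem OVN : OVN_stmt := by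
  classical
  intro K _ E _ _ _ _ _ _ _ J _ e D hB a ha
  have hXne : (RatFunc.X : RatFunc K) ≠ 0 := RatFunc.X_ne_zero
  set O : ValuationSubring (RatFunc K) := (RatFunc.inftyValuation K).valuationSubring with hO
  have hmemO : ∀ x : RatFunc K, x ∈ O ↔ RatFunc.inftyValuation K x ≤ 1 := fun x => by
    rw [hO]; exact Valuation.mem_valuationSubring_iff _ _
  set t : RatFunc K := RatFunc.X ^ D with ht
  have htne : t ≠ 0 := pow_ne_zero _ hXne
  have hvt : RatFunc.inftyValuation K t ≠ 0 := (Valuation.ne_zero_iff _).2 htne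
  have hvt1 : 1 ≤ RatFunc.inftyValuation K t := by
    have h1 := (OVN_poly K 1 D).2 (Or.inr (by simp))
    rw [map_one, map_one] at h1
    exact h1
  have ht' : algebraMap (RatFunc K) E t ≠ 0 := (map_ne_zero _).2 htne
  have hK : ∀ k : K, algebraMap K E k = algebraMap (RatFunc K) E
      (algebraMap (Polynomial K) (RatFunc K) (Polynomial.C k)) := by
    intro k
    rw [← IsScalarTower.algebraMap_apply, IsScalarTower.algebraMap_apply K (Polynomial K) E]
    rfl
  -- integrality of the generators
  have hgen : ∀ j, IsIntegral (Polynomial K) (e j) ∧ IsIntegral O (e j / algebraMap (RatFunc K) E t) := by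
    intro j
    obtain ⟨n, P, hPm, hPn, hPd, hP0⟩ := hB j
    refine ⟨⟨P, hPm, hP0⟩, ?_⟩
    refine OVN_scale O t htne n (fun i => algebraMap (Polynomial K) (RatFunc K) (P.coeff i)) ?_ (e j) ?_
    · intro i hi
      rw [hmemO, map_div₀, map_pow]
      have h1 : RatFunc.inftyValuation K (algebraMap (Polynomial K) (RatFunc K) (P.coeff i)) ≤
          RatFunc.inftyValuation K t := (OVN_poly K _ D).2 (Or.inr (hPd i))
      have h2 : RatFunc.inftyValuation K t ≤ RatFunc.inftyValuation K t ^ (n - i) :=
        le_self_pow₀ hvt1 (by omega)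
      exact div_le_one_of_le₀ (h1.trans h2) zero_le
    · rw [Polynomial.aeval_eq_sum_range, hPn, Finset.sum_range_succ] at hP0
      have h1 : P.coeff n = 1 := by
        rw [← hPn]
        exact hPm
      rw [h1, one_smul, add_comm] at hP0
      rw [← hP0]
      congr 1
      refine Finset.sum_congr rfl fun i _ => ?_
      rw [Algebra.smul_def, ← IsScalarTower.algebraMap_apply]
  have hspan : IsIntegral (Polynomial K) a ∧ IsIntegral O (a / algebraMap (RatFunc K) E t) := by
    refine Submodule.span_induction (p := fun a _ => IsIntegral (Polynomial K) a ∧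
      IsIntegral O (a / algebraMap (RatFunc K) E t)) ?_ ?_ ?_ ?_ ha
    · rintro x ⟨j, rfl⟩
      exact hgen j
    · rw [zero_div]
      exact ⟨isIntegral_zero, isIntegral_zero⟩
    · intro x y _ _ hx hy
      rw [add_div]
      exact ⟨hx.1.add hy.1, hx.2.add hy.2⟩
    · intro k x _ hx
      have h1 : k • x = algebraMap (Polynomial K) E (Polynomial.C k) * x := by
        rw [Algebra.smul_def, hK, ← IsScalarTower.algebraMap_apply]
      have hkO : algebraMap (Polynomial K) (RatFunc K) (Polynomial.C k) ∈ O := by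
        rw [hmemO]
        have h2 := (OVN_poly K (Polynomial.C k) 0).2 (Or.inr (by simp))
        rwa [pow_zero, map_one] at h2
      have h2 : k • x / algebraMap (RatFunc K) E t =
          algebraMap O E ⟨_, hkO⟩ * (x / algebraMap (RatFunc K) E t) := by
        rw [Algebra.smul_def, hK, mul_div_assoc]
        rfl
      refine ⟨?_, ?_⟩
      · rw [h1]
        exact isIntegral_algebraMap.mul hx.1
      · rw [h2]
        exact isIntegral_algebraMap.mul hx.2
  have hN1 : IsIntegral (Polynomial K) (Algebra.norm (RatFunc K) a) :=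
    Algebra.isIntegral_norm (RatFunc K) hspan.1
  have hN2 : IsIntegral O (Algebra.norm (RatFunc K) (a / algebraMap (RatFunc K) E t)) :=
    Algebra.isIntegral_norm (RatFunc K) hspan.2
  obtain ⟨p, hp⟩ := IsIntegrallyClosed.isIntegral_iff.1 hN1
  obtain ⟨y, hy⟩ := IsIntegrallyClosed.isIntegral_iff.1 hN2
  refine ⟨p, hp.symm, ?_⟩
  have h1 : Algebra.norm (RatFunc K) a = (y : RatFunc K) * t ^ Module.finrank (RatFunc K) E := by
    have h2 : a = (a / algebraMap (RatFunc K) E t) * algebraMap (RatFunc K) E t := by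
      rw [div_mul_cancel₀ _ ht']
    conv_lhs => rw [h2]
    rw [map_mul, Algebra.norm_algebraMap, ← hy]
    rfl
  have h2 : RatFunc.inftyValuation K (algebraMap (Polynomial K) (RatFunc K) p) ≤
      RatFunc.inftyValuation K ((RatFunc.X : RatFunc K) ^ (Module.finrank (RatFunc K) E * D)) := by
    rw [hp, h1, map_mul, ht, ← pow_mul, mul_comm D]
    exact mul_le_of_le_one_left zero_le ((hmemO _).1 y.2)
  rcases (OVN_poly K p _).1 h2 with h3 | h3
  · rw [h3]
    simp
  · exact h3

end Pool.Agent.helper26.IM
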